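import Pool.Agent.W476.TP.Fin

/-!
# Algebraic approximation of tilted preimages for images of complete intersections

Let `C = ℂ_p` be the completion of an algebraic closure of the field of `p`-adic numbers and let
`L` be its tilt. Let `X` be a closed subset of the projective space of dimension `n` over `C`, of
dimension `e`, which is the image of a complete intersection `Y = V(g_1, ..., g_c)` in a product of
projective spaces under a map given by multihomogeneous forms `f_0, ..., f_n` of the same
multidegree without common zeros on `Y`. We prove that for every neighbourhood of `X` there is a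
closed subscheme `V(I)` of the projective space of dimension `n` over `L`, also of dimension `e`,
all of whose points are mapped to this neighbourhood by the sharp map.

* The neighbourhoods are the tubes `|P(x)| ≤ ε * (max |x_i|) ^ (deg P)` for all `P` in a finite set
  `Q` of forms vanishing on `X`, with `ε > 0`. By compactness every open neighbourhood of the adic
  space of `X` contains such a tube.
* The points of `V(I)` are given by homogeneous coordinates in the tilt of the ring of integers;
  all `L`-valued points have such coordinates. The sharp map on the tilt of the ring of integers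
  is `PreTilt.untilt`. The field `L` is algebraically closed, so these points are the closed points
  of `V(I)`; they are dense in the constructible topology of the adic space of `V(I)`, so that the
  adic space of `V(I)` is contained in the preimage of the tube.
* `Y` is a complete intersection in the following numerical sense: the `c` multidegrees `a_j` of
  the equations and `e` copies of the multidegree `D` of the forms `f_i` can be assigned to factors
  of the product in which they are positive, with at most `m κ` of them assigned to the factor of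
  dimension `m κ`. Equivalently the product of the classes `a_1, ..., a_c` and of the `e`-th power
  of the class `D` is nonzero in the Chow ring of the product of projective spaces.
-/

set_option autoImplicit false

namespace Pool.Agent.Results.MP_db3ab1_ag.ImagesOfCompleteIntersections

open MvPolynomial

/-- The tilt of the ring of integers of `ℂ_p`. -/
abbrev TiltInt (p : ℕ) [Fact p.Prime] : Type := PreTilt 𝓞_ℂ_[p] p

/-- The tilt `L` of `ℂ_p`: the fraction field of the tilt of the ring of integers of `ℂ_p`. -/
def TiltCp (p : ℕ) [Fact p.Prime] : Type := FractionRing (TiltInt p)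

noncomputable instance instFieldTiltCp (p : ℕ) [Fact p.Prime] : Field (TiltCp p) :=
  (inferInstance : Field (FractionRing (TiltInt p)))

/-- The inclusion of the tilt of the ring of integers of `ℂ_p` in its fraction field. -/
noncomputable def incl (p : ℕ) [Fact p.Prime] : TiltInt p →+* TiltCp p :=
  algebraMap (TiltInt p) (FractionRing (TiltInt p))

/-- The sharp map from the tilt of the ring of integers of `ℂ_p` to `ℂ_p`. -/
noncomputable def sharp {p : ℕ} [Fact p.Prime] (z : TiltInt p) : ℂ_[p] := (z.untilt : ℂ_[p])

/-- The indices of the homogeneous coordinates of the product of the projective spaces of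
dimensions `m κ`, for `κ < r`. -/
abbrev Coord {r : ℕ} (m : Fin r → ℕ) : Type := (κ : Fin r) × Fin (m κ + 1)

/-- `F` is multihomogeneous of multidegree `d`: all its monomials have degree `d κ` in the
coordinates of the factor `κ`. -/
def IsMultihomogeneous {r : ℕ} {m : Fin r → ℕ} {K : Type} [Field K]
    (F : MvPolynomial (Coord m) K) (d : Fin r → ℕ) : Prop :=
  ∀ α ∈ F.support, ∀ κ, ∑ i, α ⟨κ, i⟩ = d κ

/-- `y` consists of homogeneous coordinates of a point of the product of projective spaces. -/
def IsPoint {r : ℕ} {m : Fin r → ℕ} {K : Type} [Field K] (y : Coord m → K) : Prop :=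
  ∀ κ, ∃ i, y ⟨κ, i⟩ ≠ 0

/-- The set of all coordinate vectors `(f_0(y), ..., f_n(y))` where `y` runs over the homogeneous
coordinates of the common zeros of the `g_j` in the product of projective spaces. The image `X` is
the set of points of the projective space with these coordinates. -/
def imageVectors {r c n : ℕ} {m : Fin r → ℕ} {K : Type} [Field K]
    (g : Fin c → MvPolynomial (Coord m) K) (f : Fin (n + 1) → MvPolynomial (Coord m) K) :
    Set (Fin (n + 1) → K) :=
  {x | ∃ y : Coord m → K, IsPoint y ∧ (∀ j, eval y (g j) = 0) ∧ ∀ i, x i = eval y (f i)}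

/-- `f` has no common zero on the zero set of `g`. -/
def BasePointFree {r c n : ℕ} {m : Fin r → ℕ} {K : Type} [Field K]
    (g : Fin c → MvPolynomial (Coord m) K) (f : Fin (n + 1) → MvPolynomial (Coord m) K) : Prop :=
  ∀ y : Coord m → K, IsPoint y → (∀ j, eval y (g j) = 0) → ∃ i, eval y (f i) ≠ 0

/-- The multidegrees `a_j` and `e` copies of the multidegree `D` can be assigned to factors in which
they are positive, with at most `m κ` of them assigned to the factor `κ`. -/
def PositiveIntersection {r c : ℕ} (m : Fin r → ℕ) (a : Fin c → Fin r → ℕ) (D : Fin r → ℕ)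
    (e : ℕ) : Prop :=
  ∃ τ : Fin c ⊕ Fin e → Fin r, (∀ j, 0 < a j (τ (Sum.inl j))) ∧
    (∀ k, 0 < D (τ (Sum.inr k))) ∧ ∀ κ, (Finset.univ.filter fun x => τ x = κ).card ≤ m κ

/-- The closed subscheme `V(I)` of the projective space of dimension `n` has dimension `e`: the
dimension of its homogeneous coordinate ring is `e + 1`. -/
def HasDimension {n : ℕ} {K : Type} [Field K] (I : Ideal (MvPolynomial (Fin (n + 1)) K))
    (e : ℕ) : Prop :=
  ringKrullDim (MvPolynomial (Fin (n + 1)) K ⧸ I) = ((e + 1 : ℕ) : WithBot ℕ∞)

/-- `I` is a homogeneous ideal: it contains the homogeneous components of its elements. -/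
def IsHomogeneousIdeal {n : ℕ} {K : Type} [Field K] (I : Ideal (MvPolynomial (Fin (n + 1)) K)) :
    Prop :=
  ∀ P ∈ I, ∀ k, homogeneousComponent k P ∈ I

/-- The point with homogeneous coordinates `x` lies in the tube `|P| ≤ ε`, `P ∈ Q`: we have
`|P(x)| ≤ ε * (max |x_i|) ^ (deg P)` for all forms `P ∈ Q`. -/
def InTube {n : ℕ} {K : Type} [NormedField K] (Q : Finset (MvPolynomial (Fin (n + 1)) K)) (ε : ℝ)
    (x : Fin (n + 1) → K) : Prop :=
  ∀ P ∈ Q, ∀ k, P.IsHomogeneous k → ∃ i, ‖eval x P‖ ≤ ε * ‖x i‖ ^ k

/-- All points of `V(I)`, given by homogeneous coordinates in the tilt of the ring of integers of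
`ℂ_p`, are mapped to the tube by the sharp map. -/
def MapsToTube {p : ℕ} [Fact p.Prime] {n : ℕ} (I : Ideal (MvPolynomial (Fin (n + 1)) (TiltCp p)))
    (Q : Finset (MvPolynomial (Fin (n + 1)) ℂ_[p])) (ε : ℝ) : Prop :=
  ∀ z : Fin (n + 1) → TiltInt p, z ≠ 0 → (∀ P ∈ I, eval (fun i => incl p (z i)) P = 0) →
    InTube Q ε (fun i => sharp (z i))

theorem mh_of {r : ℕ} {m : Fin r → ℕ} {K : Type} [Field K] {F : MvPolynomial (Coord m) K}
    {d : Fin r → ℕ} (h : IsMultihomogeneous F d) : Pool.Agent.W476.TP.MH F d := by
  intro α hα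
  have h1 := h α (mem_support_iff.2 hα)
  rw [Finsupp.weight_apply, Finsupp.sum_fintype _ _ (fun i => by exact zero_smul ℕ _)]
  funext κ
  rw [← h1 κ, Finset.sum_apply, Fintype.sum_sigma, Finset.sum_eq_single κ]
  · refine Finset.sum_congr rfl fun i _ => ?_
    simp [Pool.Agent.W476.TP.wt]
  · intro b _ hb
    refine Finset.sum_eq_zero fun i _ => ?_
    simp [Pool.Agent.W476.TP.wt, Pi.single_eq_of_ne (Ne.symm hb)]
  · intro h
    exact absurd (Finset.mem_univ _) h

/-- **Approximation of the tilted preimage of the image of a complete intersection.** -/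
theorem result (p : ℕ) [Fact p.Prime] {r c n e : ℕ} (m : Fin r → ℕ)
    (g : Fin c → MvPolynomial (Coord m) ℂ_[p]) (a : Fin c → Fin r → ℕ)
    (f : Fin (n + 1) → MvPolynomial (Coord m) ℂ_[p]) (D : Fin r → ℕ)
    (hg : ∀ j, IsMultihomogeneous (g j) (a j)) (hf : ∀ i, IsMultihomogeneous (f i) D) (hD : D ≠ 0)
    (hbpf : BasePointFree g f) (hpos : PositiveIntersection m a D e)
    (hdim : HasDimension (vanishingIdeal ℂ_[p] (imageVectors g f)) e)
    (Q : Finset (MvPolynomial (Fin (n + 1)) ℂ_[p]))
    (hQ : ∀ P ∈ Q, P ∈ vanishingIdeal ℂ_[p] (imageVectors g f) ∧ ∃ k, P.IsHomogeneous k)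
    (ε : ℝ) (hε : 0 < ε) :
    ∃ I : Ideal (MvPolynomial (Fin (n + 1)) (TiltCp p)),
      IsHomogeneousIdeal I ∧ HasDimension I e ∧ MapsToTube I Q ε := by
  have hp0 : 0 < ‖(p : ℂ_[p])‖ := Pool.Agent.W476.TP.norm_p_pos'
  have hp1 : ‖(p : ℂ_[p])‖ < 1 := Pool.Agent.W476.TP.norm_p_lt
  have hacl : IsAlgClosed (Pool.Agent.W476.TP.TF p) :=
    Pool.Agent.W465.TP.t_ACL p ℂ_[p] (Pool.Agent.W476.TP.TF p) (Pool.Agent.W476.TP.ShT p) hp0 hp1
      Pool.Agent.W476.TP.cpl (Pool.Agent.W476.TP.t_perf p)
  obtain ⟨τ, h1, h2, h3⟩ := hpos
  have hid : vanishingIdeal ℂ_[p] (imageVectors g f) = Pool.Agent.W476.TP.imIdeal g f := by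
    ext P
    rw [mem_vanishingIdeal_iff]
    constructor
    · intro h y hy hy2
      exact h _ ⟨y, hy, hy2, fun _ => rfl⟩
    · rintro h x ⟨y, hy, hy2, hx⟩
      have : x = fun i => eval y (f i) := funext hx
      rw [this]
      exact h y hy hy2
  rw [hid] at hdim
  unfold HasDimension at hdim
  have key := Pool.Agent.W476.TP.main p ℂ_[p] (Pool.Agent.W476.TP.TF p)
    (Pool.Agent.W476.TP.ShT p) hp0 hp1 m g a (fun j => mh_of (hg j)) f D (fun i => mh_of (hf i))
    hD hbpf τ h1 h2 h3 hdim ε hε Q (fun P hP => by rw [← hid]; exact (hQ P hP).1)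
    (fun P hP => (hQ P hP).2)
  have key2 : ∃ I : Ideal (MvPolynomial (Fin (n + 1)) (Pool.Agent.W476.TP.TF p)),
      IsHomogeneousIdeal I ∧ HasDimension I e ∧
      ∀ z : Fin (n + 1) → TiltInt p, z ≠ 0 → (∀ P ∈ I, eval (fun i =>
        algebraMap (TiltInt p) (FractionRing (TiltInt p)) (z i)) P = 0) →
      InTube Q ε (fun i => sharp (z i)) := by
    obtain ⟨I, hI, hI2, hI3⟩ := key
    refine ⟨I, hI, hI2, fun z hz hzI P hP k hk => ?_⟩
    have hz' : (fun i => algebraMap (TiltInt p) (FractionRing (TiltInt p)) (z i)) ≠ 0 := by
      intro h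
      apply hz
      funext i
      exact IsFractionRing.injective (TiltInt p) (FractionRing (TiltInt p))
        (by rw [Pi.zero_apply, map_zero]; exact congrFun h i)
    obtain ⟨i, hi⟩ := hI3 _ hz' hzI P hP k hk
    refine ⟨i, ?_⟩
    simp only [Pool.Agent.W476.TP.ShT_sh, Pool.Agent.W476.TP.sharp_alg] at hi
    exact hi
  exact key2

end Pool.Agent.Results.MP_db3ab1_ag.ImagesOfCompleteIntersections
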